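import Pool.Agent.KneserThree.Factor

set_option autoImplicit false

namespace Pool.Agent.Results.MP_16e5ec_co.CongruentBalls

/-- For congruent balls in dimension `e + 2`, Kneser's weighted multiplicity inequality holds up to
the factor `(4 / 3) ^ e` for all nonnegative nonincreasing weights. -/
theorem result :
    ∀ (e n : ℕ) (p q : Fin n → EuclideanSpace ℝ (Fin (e + 2))) (r : ℝ) (τ : Fin n → ℝ),
      (∀ i j, dist (q i) (q j) ≤ dist (p i) (p j)) →
      0 < r →
      Antitone τ →
      (∀ i, 0 ≤ τ i) →
      ∑ k : Fin n, τ k *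
          (MeasureTheory.volume
            {x : EuclideanSpace ℝ (Fin (e + 2)) |
              k.val + 1 ≤ (Finset.univ.filter (fun i => dist x (q i) ≤ r)).card}).toReal
        ≤ (4 / 3 : ℝ) ^ e * ∑ k : Fin n, τ k *
          (MeasureTheory.volume
            {x : EuclideanSpace ℝ (Fin (e + 2)) |
              k.val + 1 ≤ (Finset.univ.filter (fun i => dist x (p i) ≤ r)).card}).toReal := by
  intro e n p q r τ hpq hr hτ hτ0
  exact Pool.Agent.KneserThree.weighted_all p q hpq hr hτ hτ0

end Pool.Agent.Results.MP_16e5ec_co.CongruentBalls
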