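import Pool.Agent.KneserRank.Final

set_option autoImplicit false

namespace Pool.Agent.Results.MP_16e5ec_co.RankCondition

/-- The vector `(1, p i, q i, ‖p i‖ ^ 2 - ‖q i‖ ^ 2)`. -/
noncomputable def vec {d n : ℕ} (p q : Fin n → EuclideanSpace ℝ (Fin d)) (i : Fin n) :
    ℝ × EuclideanSpace ℝ (Fin d) × EuclideanSpace ℝ (Fin d) × ℝ :=
  (1, p i, q i, ‖p i‖ ^ 2 - ‖q i‖ ^ 2)

/-- The volume of the set of points lying in at least `k` of the closed balls with centres `p i`
and radii `ρ i`. -/
noncomputable def covered {d n : ℕ} (p : Fin n → EuclideanSpace ℝ (Fin d)) (ρ : Fin n → ℝ)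
    (k : ℕ) : ℝ :=
  (MeasureTheory.volume {x : EuclideanSpace ℝ (Fin d) |
    k ≤ (Finset.univ.filter (fun i => dist x (p i) ≤ ρ i)).card}).toReal

/-- Kneser's weighted multiplicity inequality holds for every contraction for which the vectors
`(1, p i, q i, ‖p i‖ ^ 2 - ‖q i‖ ^ 2)` span a space of dimension at most `d + 4`; in particular
for every contraction of at most `d + 4` points in dimension `d`, for every contraction in
dimension `d ≤ 2`, and in dimension three for every contraction such that
`dist (p i) a ^ 2 - dist (q i) b ^ 2` is constant for some points `a`, `b`. -/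
theorem result :
    ∀ (d n : ℕ) (p q : Fin n → EuclideanSpace ℝ (Fin d)) (ρ τ : Fin n → ℝ),
      Module.finrank ℝ (Submodule.span ℝ (Set.range (vec p q))) ≤ d + 4 →
      (∀ i j, dist (q i) (q j) ≤ dist (p i) (p j)) →
      (∀ i, 0 < ρ i) →
      Antitone τ →
      ∑ k : Fin n, τ k * covered q ρ (k.val + 1) ≤
        ∑ k : Fin n, τ k * covered p ρ (k.val + 1) := by
  intro d n p q ρ τ hd h hρ hτ
  exact Pool.Agent.KneserRank.weighted_of_rank p q ρ τ
    (by rw [finrank_euclideanSpace_fin]; exact hd) h (fun i => (hρ i).le) hτ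

end Pool.Agent.Results.MP_16e5ec_co.RankCondition
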